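import Pool.Agent.Helper94.GA.Goals

/-!
# Packet CMB: the combinatorial pattern

A copy of the proof of `dynamics` and `mainOne` (Helper11/Gap), without the elliptic hypothesis and
without the selection of a sign.
-/

namespace Pool.Agent.Helper60.GA

open Pointwise
open scoped commutatorElement
open Pool.Agent.Helper11.Gap Pool.Agent.Helper94.GA

universe u v

theorem Hyp'.ne_one {G : Type u} [Group G] {K : Type v} [Field K]
    {R : AffRep (commutator G) K} {h x : G} (hh : Hyp' R h x) : (R.at' h).χ x ≠ 1 := by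
  have := hh 1 one_pos
  rwa [pow_one] at this

theorem swap_step {G : Type u} [Group G] [DecidableEq G] {K : Type v} [Field K] {T : Finset G}
    (hT : Sym T) (R : AffRep (commutator G) K) (d : ℕ)
    (hfix : FixProp' T R d) (h x y : G) (hx : IsX T x) (hy : IsX T y) (hh : Hyp' R h x)
    (a₂ : ℕ) (p : G) (q : G) (hq : q ∈ T ^ a₂) (a : G) (ha : a ∈ T) (b : G)
    (hb : b ∈ T) (hlen : a₂ < d)
    (hQ : (R.at' (p * (a * b) * q * h)).act y ((R.at' h).ctr x) ≠ (R.at' h).ctr x) :
    (R.at' (p * (b * a) * q * h)).act y ((R.at' h).ctr x) ≠ (R.at' h).ctr x := by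
  have hcX : IsX T ⁅b⁻¹, a⁻¹⁆ := ⟨_, hT.inv b hb, _, hT.inv a ha, rfl⟩
  have ecR : p * (b * a) * q * h =
      (p * (a * b) * q * h) * ((q * h)⁻¹ * ⁅b⁻¹, a⁻¹⁆ * (q * h)) := by
    rw [commutatorElement_def]; group
  have hκN : (q * h)⁻¹ * ⁅b⁻¹, a⁻¹⁆ * (q * h) ∈ commutator G := conj_mem' hcX.mem _
  have hfixo := hfix h x _ q a₂ hx hcX hh hq hlen
  rw [AffRep.at'_act] at hfixo
  intro hcon
  rw [ecR, R.at'_mul_fix_iff hκN hy.mem hfixo] at hcon
  exact hQ hcon

theorem χ_seg_prod {G : Type u} [Group G] {K : Type v} [Field K] {N : Subgroup G}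
    (R : AffRep N K) {Y : ℕ → G} (hY : ∀ t, Y t ∈ N) (J : Finset ℕ) (n : ℕ) :
    R.χ (seg Y J 0 n) = ∏ t ∈ Finset.range n, if t ∈ J then R.χ (Y t) else 1 := by
  classical
  induction n with
  | zero => simp [seg, R.χ_one]
  | succ n ih =>
    rw [seg_succ, Finset.prod_range_succ, ← ih, zero_add]
    have hs := seg_mem hY J 0 n
    split_ifs with hJ
    · rw [R.χ_mul _ (hY _) _ hs, mul_comm]
    · rw [one_mul, mul_one]

/-- Nonzero elements modulo torsion. -/
theorem mk_ne_one_iff {K : Type v} [Field K] (z : K) (hz : z ≠ 0) :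
    (QuotientGroup.mk (Units.mk0 z hz) : Kˣ ⧸ CommGroup.torsion Kˣ) ≠ 1 ↔
      ∀ k : ℕ, 0 < k → z ^ k ≠ 1 := by
  rw [Ne, QuotientGroup.eq_one_iff, CommGroup.mem_torsion, isOfFinOrder_iff_pow_eq_one]
  push Not
  constructor
  · intro h k hk hz1
    refine h k hk ?_
    ext
    simpa using hz1
  · intro h k hk hz1
    refine h k hk ?_
    have := congrArg Units.val hz1
    simpa using this

theorem CMB (h1 : CMBMIN_stmt.{u, v}) : CMB_stmt.{u, v} := by
  classical
  intro G _ instG K _ T hT hgen R H1 H2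
  obtain ⟨d, hfix, h, x, y, g, hx, hy, hh, hg, hmove0⟩ := h1 G K T hT hgen R H1 H2
  obtain ⟨ℓ, hℓ, hper, hpth⟩ := exists_pth hT d g hg
  have hmove : ∀ i < max d 1, (R.at' (pth ℓ (i + d) * (pth ℓ i)⁻¹ * h)).act y
      ((R.at' h).ctr x) ≠ (R.at' h).ctr x := by
    intro i hi
    rcases Nat.eq_zero_or_pos d with hd0 | hd0
    · have hi0 : i = 0 := by omega
      subst hi0
      subst hd0
      have e : pth ℓ (0 + 0) * (pth ℓ 0)⁻¹ * h = g * h := by
        rw [← hpth]; simp [pth]
      rw [e]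
      exact hmove0
    · have hrot := rotate_path hT
        (fun w => (R.at' (w * h)).act y ((R.at' h).ctr x) ≠ (R.at' h).ctr x) d hd0
        (by
          intro a₁ a₂ p _ q hq a ha b hb hlen
          constructor
          · exact swap_step hT R d hfix h x y hx hy hh a₂ p q hq a ha b hb (by omega)
          · exact swap_step hT R d hfix h x y hx hy hh a₂ p q hq b hb a ha (by omega))
        hℓ hper i
      rw [hpth] at hrot
      exact hrot.2 hmove0
  clear hmove0 hpth hper hg
  set D := max d 1 with hD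
  have hD1 : 1 ≤ D := le_max_right _ _
  have hdD : d ≤ D := le_max_left _ _
  have hD2 : 2 ≤ D → d = D := by intro h2; omega
  set o := (R.at' h).ctr x with ho
  set Ri : ℕ → AffRep (commutator G) K := fun i => R.at' ((pth ℓ i)⁻¹ * h) with hRi
  set X : ℕ → G := fun t => (pth ℓ (t + 0))⁻¹ * x * pth ℓ (t + 0) with hX
  set Y : ℕ → G := fun t => (pth ℓ (t + d))⁻¹ * y * pth ℓ (t + d) with hY
  have hXN : ∀ t, X t ∈ commutator G := fun t => conj_pth_mem hx.mem _
  have hYN : ∀ t, Y t ∈ commutator G := fun t => conj_pth_mem hy.mem _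
  -- X fixes o
  have hXfix : ∀ i < D, ∀ t < D, (Ri i).act (X t) o = o := by
    intro i hi t ht
    rw [hRi, hX]
    simp only [add_zero]
    rw [conv_act]
    rcases eq_or_ne t i with rfl | hti
    · rw [mul_inv_cancel, one_mul]
      exact (R.at' h).act_ctr (Hyp'.ne_one hh)
    · have hd : d = D := hD2 (by omega)
      refine hfix h x x _ (D - 1) hx hx hh (pth_seg_mem' hT hℓ (by omega) (by omega)) ?_
      omega
  -- classes modulo torsion
  set c : ℕ → ℕ → Kˣ ⧸ CommGroup.torsion Kˣ := fun i t =>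
    QuotientGroup.mk (Units.mk0 ((Ri i).χ (X t)) ((Ri i).χ_ne_zero (hXN t))) with hc
  have hcii : ∀ i < D, c i i ≠ 1 := by
    intro i _
    rw [hc]
    simp only
    rw [mk_ne_one_iff, hRi, hX]
    simp only [add_zero]
    rw [conv_χ, mul_inv_cancel, one_mul]
    exact hh
  obtain ⟨J₀, hJ₀⟩ := exists_J0 D c hcii
  set u₀ := seg X J₀ 0 D with hu₀
  have hu₀N : u₀ ∈ commutator G := seg_mem hXN J₀ 0 D
  have hcu₀ : ∀ i, (QuotientGroup.mk (Units.mk0 ((Ri i).χ u₀) ((Ri i).χ_ne_zero hu₀N)) :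
      Kˣ ⧸ CommGroup.torsion Kˣ) = ∏ t ∈ Finset.range D, if t ∈ J₀ then c i t else 1 := by
    intro i
    have e1 : Units.mk0 ((Ri i).χ u₀) ((Ri i).χ_ne_zero hu₀N) =
        ∏ t ∈ Finset.range D, if t ∈ J₀ then
          Units.mk0 ((Ri i).χ (X t)) ((Ri i).χ_ne_zero (hXN t)) else 1 := by
      apply Units.ext
      rw [Units.coe_prod, Units.val_mk0, hu₀, χ_seg_prod (Ri i) hXN J₀ D]
      apply Finset.prod_congr rfl
      intro t _
      split_ifs
      · rfl
      · rfl
    rw [e1]
    have e2 := map_prod (QuotientGroup.mk' (CommGroup.torsion Kˣ))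
      (fun t => if t ∈ J₀ then
          Units.mk0 ((Ri i).χ (X t)) ((Ri i).χ_ne_zero (hXN t)) else 1) (Finset.range D)
    rw [QuotientGroup.mk'_apply] at e2
    rw [e2]
    apply Finset.prod_congr rfl
    intro t _
    split_ifs
    · rfl
    · rfl
  have hu₀fix : ∀ i < D, (Ri i).act u₀ o = o := by
    intro i hi
    exact fix_seg (Ri i) hXN J₀ 0 D o (fun t _ ht => hXfix i hi t (by omega))
  have hu₀len : u₀ ∈ T ^ (6 * D) := by
    rw [hu₀, hX, seg_eq_ins]
    have := ins_mem hT hℓ 0 (z := fun t => if t ∈ J₀ then x else 1) (m := 4) (by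
      intro t
      split_ifs
      · exact hx.mem_pow hT
      · exact hT.one_mem_pow 4) D
    exact hT.mono (by omega) this
  set I := (Finset.range D).filter
    (fun i => (∏ t ∈ Finset.range D, if t ∈ J₀ then c i t else 1) ≠ 1) with hIdef
  have hI : ∀ i ∈ I, i < D := by
    intro i hi
    exact Finset.mem_range.1 (Finset.mem_filter.1 hi).1
  have hIχ : ∀ i ∈ I, ∀ k : ℕ, 0 < k → (Ri i).χ u₀ ^ k ≠ 1 := by
    intro i hi
    have h2 := (Finset.mem_filter.1 hi).2
    rw [← hcu₀ i, mk_ne_one_iff] at h2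
    exact h2
  -- blocks
  have hblklen : ∀ J : Finset ℕ, blk Y u₀ D J ∈ T ^ (22 * D) := by
    intro J
    have h1 : seg Y J 0 D ∈ T ^ (8 * D) := by
      rw [hY, seg_eq_ins]
      have := ins_mem hT hℓ d (z := fun t => if t ∈ J then y else 1) (m := 4) (by
        intro t
        split_ifs
        · exact hy.mem_pow hT
        · exact hT.one_mem_pow 4) D
      exact hT.mono (by omega) this
    have h2 := mul_mem_pow (mul_mem_pow h1 hu₀len) (hT.inv_mem_pow h1)
    exact hT.mono (by omega) h2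
  exact ⟨{
    D := D
    hs := fun i => (pth ℓ i)⁻¹ * h
    o := o
    u := u₀
    Y := Y
    I := I
    hD := hD1
    hu := hu₀N
    hY := hYN
    hI := hI
    hcard := hJ₀
    hfix := fun i hi => hu₀fix i (hI i hi)
    hχ := hIχ
    hb := by
      intro i hi t ht
      have hiD := hI i hi
      have hd : d = D := hD2 (by omega)
      rw [hY]
      simp only
      rw [conv_act]
      refine hfix h x y _ (D - 1) hx hy hh (pth_seg_mem' hT hℓ (by omega) (by omega)) ?_
      omega
    hc := by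
      intro i hi
      rw [hY]
      simp only
      rw [conv_act]
      exact hmove i (hI i hi)
    hlen := hblklen }⟩

end Pool.Agent.Helper60.GA
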